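import Mathlib
import Pool.Agent.SCM.FNB

set_option autoImplicit false

/-!
# Integers not of the form x y z + x + y + z: a smaller exceptional set

Let `U_3(N)` be the number of `n ≤ N` that are not of the form `x y z + x + y + z` with positive
integers `x, y, z`. The large sieve with prime moduli `x y + 1` gives
`U_3(N) ≪ N exp (-(log N)^(1/2))`. We prove
`U_3(N) ≤ N exp (-c (log N)^(2/3) / (log log N)^(1/3))` for some `c > 0` and all large `N`, by a sieve
with composite moduli `x y + 1` (without small prime factors) that uses only the pair correlations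
of the classes `n ≡ x + y (mod x y + 1)`.
-/

namespace Pool.Agent.Results.MP_cd49e3_nt.ExceptionalSet

open Finset

open Classical in
/-- There are `c > 0` and `N₀` with: for every `N ≥ N₀` the number of `n ≤ N` that are not of the
form `x y z + x + y + z` with `x, y, z ≥ 1` is at most
`N exp (-c (log N)^(2/3) / (log log N)^(1/3))`. -/
theorem result : ∃ c : ℝ, 0 < c ∧ ∃ N₀ : ℕ, ∀ N : ℕ, N₀ ≤ N →
    (((Icc 1 N).filter (fun n : ℕ => ∀ x y z : ℕ, 0 < x → 0 < y → 0 < z →
      x * y * z + x + y + z ≠ n)).card : ℝ) ≤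
      N * Real.exp (-(c * (Real.log N) ^ (2 / 3 : ℝ) /
        (Real.log (Real.log N)) ^ (1 / 3 : ℝ))) := by
  obtain ⟨c, hc, N₀, h⟩ := Pool.Agent.SCM.final_bound
  refine ⟨c, hc, N₀, fun N hN => ?_⟩
  have h1 := h N hN
  have h2 : (Icc 1 N).filter (fun n : ℕ => ∀ x y z : ℕ, 0 < x → 0 < y → 0 < z →
      x * y * z + x + y + z ≠ n) = (Icc 1 N).filter (fun n => Pool.Agent.SCM.NoRep n) := by
    apply Finset.filter_congr
    intro n _
    unfold Pool.Agent.SCM.NoRep
    constructor
    · rintro h ⟨x, y, z, hx, hy, hz, rfl⟩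
      exact h x y z hx hy hz rfl
    · intro h x y z hx hy hz e
      exact h ⟨x, y, z, hx, hy, hz, e.symm⟩
  rw [h2]
  exact h1

end Pool.Agent.Results.MP_cd49e3_nt.ExceptionalSet
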